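import Pool.Agent.Helper12.NK.St

/-!
# Project NK, module CRX: crossing sets on a closed chain give `K₅` or `K₃,₃`
-/

set_option autoImplicit false

namespace Pool.Agent.Helper29.NK

open Pool.Agent.Helper12.NK
open Pool.Agent.Helper51.AJ (IsMinor Planar Apex ExMinor Con Tch)

private lemma five (hMNR : StMNR) {α : Type} {H : SimpleGraph α} (hp : Planar H) (a b c d e : Set α)
    (ca : Con H a) (cb : Con H b) (cc : Con H c) (cd : Con H d) (ce : Con H e)
    (dab : Disjoint a b) (dac : Disjoint a c) (dad : Disjoint a d) (dae : Disjoint a e)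
    (dbc : Disjoint b c) (dbd : Disjoint b d) (dbe : Disjoint b e) (dcd : Disjoint c d)
    (dce : Disjoint c e) (dde : Disjoint d e)
    (tab : Tch H a b) (tac : Tch H a c) (tad : Tch H a d) (tae : Tch H a e) (tbc : Tch H b c)
    (tbd : Tch H b d) (tbe : Tch H b e) (tcd : Tch H c d) (tce : Tch H c e) (tde : Tch H d e) :
    False := by
  refine (hMNR α H hp).1 ![a, b, c, d, e] ?_ ?_ ?_
  · intro i
    fin_cases i
    · exact ca
    · exact cb
    · exact cc
    · exact cd
    · exact ce
  · have key : ∀ i j : Fin 5, i < j → Disjoint (![a, b, c, d, e] i) (![a, b, c, d, e] j) := by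
      intro i j hij
      fin_cases i <;> fin_cases j <;> first
        | exact absurd hij (by decide)
        | exact dab
        | exact dac
        | exact dad
        | exact dae
        | exact dbc
        | exact dbd
        | exact dbe
        | exact dcd
        | exact dce
        | exact dde
    intro i j hij
    rcases lt_or_gt_of_ne hij with h | h
    · exact key i j h
    · exact (key j i h).symm
  · have key : ∀ i j : Fin 5, i < j → Tch H (![a, b, c, d, e] i) (![a, b, c, d, e] j) := by
      intro i j hij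
      fin_cases i <;> fin_cases j <;> first
        | exact absurd hij (by decide)
        | exact tab
        | exact tac
        | exact tad
        | exact tae
        | exact tbc
        | exact tbd
        | exact tbe
        | exact tcd
        | exact tce
        | exact tde
    intro i j hij
    rcases lt_or_gt_of_ne hij with h | h
    · exact key i j h
    · exact Pool.Agent.Helper51.AJ.tch_symm (key j i h)

private lemma three (hMNR : StMNR) {α : Type} {H : SimpleGraph α} (hp : Planar H)
    (a b c a' b' c' : Set α)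
    (ca : Con H a) (cb : Con H b) (cc : Con H c) (ca' : Con H a') (cb' : Con H b') (cc' : Con H c')
    (dab : Disjoint a b) (dac : Disjoint a c) (dbc : Disjoint b c)
    (dab' : Disjoint a' b') (dac' : Disjoint a' c') (dbc' : Disjoint b' c')
    (e1 : Disjoint a a') (e2 : Disjoint a b') (e3 : Disjoint a c')
    (e4 : Disjoint b a') (e5 : Disjoint b b') (e6 : Disjoint b c')
    (e7 : Disjoint c a') (e8 : Disjoint c b') (e9 : Disjoint c c')
    (t1 : Tch H a a') (t2 : Tch H a b') (t3 : Tch H a c')
    (t4 : Tch H b a') (t5 : Tch H b b') (t6 : Tch H b c')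
    (t7 : Tch H c a') (t8 : Tch H c b') (t9 : Tch H c c') : False := by
  refine (hMNR α H hp).2 ![a, b, c] ![a', b', c'] ?_ ?_ ?_ ?_ ?_ ?_
  · intro i
    fin_cases i
    · exact ca
    · exact cb
    · exact cc
  · intro i
    fin_cases i
    · exact ca'
    · exact cb'
    · exact cc'
  · have key : ∀ i j : Fin 3, i < j → Disjoint (![a, b, c] i) (![a, b, c] j) := by
      intro i j hij
      fin_cases i <;> fin_cases j <;> first
        | exact absurd hij (by decide)
        | exact dab
        | exact dac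
        | exact dbc
    intro i j hij
    rcases lt_or_gt_of_ne hij with h | h
    · exact key i j h
    · exact (key j i h).symm
  · have key : ∀ i j : Fin 3, i < j → Disjoint (![a', b', c'] i) (![a', b', c'] j) := by
      intro i j hij
      fin_cases i <;> fin_cases j <;> first
        | exact absurd hij (by decide)
        | exact dab'
        | exact dac'
        | exact dbc'
    intro i j hij
    rcases lt_or_gt_of_ne hij with h | h
    · exact key i j h
    · exact (key j i h).symm
  · intro i j
    fin_cases i <;> fin_cases j <;> first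
      | exact e1
      | exact e2
      | exact e3
      | exact e4
      | exact e5
      | exact e6
      | exact e7
      | exact e8
      | exact e9
  · intro i j
    fin_cases i <;> fin_cases j <;> first
      | exact t1
      | exact t2
      | exact t3
      | exact t4
      | exact t5
      | exact t6
      | exact t7
      | exact t8
      | exact t9

/-- the union of `S (i + t)`, `a ≤ t < b` -/
private def arc {α : Type} {m : ℕ} (S : ZMod m → Set α) (i : ZMod m) (a b : ℕ) : Set α :=
  {x | ∃ t : ℕ, a ≤ t ∧ t < b ∧ x ∈ S (i + t)}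

section

variable {α : Type} {H : SimpleGraph α} {m : ℕ} {S : ZMod m → Set α} (i : ZMod m)

private lemma sub_arc {a b t : ℕ} (h1 : a ≤ t) (h2 : t < b) : S (i + t) ⊆ arc S i a b :=
  fun _ hx => ⟨t, h1, h2, hx⟩

private lemma tch_arc (hS : ∀ i, Tch H (S i) (S (i + 1))) {a b c : ℕ} (h1 : a < b) (h2 : b < c) :
    Tch H (arc S i a b) (arc S i b c) := by
  have h := hS (i + ((b - 1 : ℕ) : ZMod m))
  have e : i + ((b - 1 : ℕ) : ZMod m) + 1 = i + (b : ZMod m) := by
    have h3 : ((b - 1 : ℕ) : ZMod m) + 1 = (b : ZMod m) := by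
      have h4 : b - 1 + 1 = b := by omega
      have h5 : (((b - 1) + 1 : ℕ) : ZMod m) = (b : ZMod m) := by rw [h4]
      rw [← h5]
      push_cast
      rfl
    rw [add_assoc, h3]
  rw [e] at h
  exact Pool.Agent.Helper51.AJ.tch_mono h (sub_arc i (by omega) (by omega))
    (sub_arc i (le_refl b) h2)

private lemma tch_close (hS : ∀ i, Tch H (S i) (S (i + 1))) {a c : ℕ} (h1 : 0 < a) (h2 : c < m) :
    Tch H (arc S i c m) (arc S i 0 a) := by
  have h := hS (i + ((m - 1 : ℕ) : ZMod m))
  have e : i + ((m - 1 : ℕ) : ZMod m) + 1 = i + ((0 : ℕ) : ZMod m) := by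
    have h3 : ((m - 1 : ℕ) : ZMod m) + 1 = ((0 : ℕ) : ZMod m) := by
      have h4 : m - 1 + 1 = m := by omega
      have h5 : (((m - 1) + 1 : ℕ) : ZMod m) = ((0 : ℕ) : ZMod m) := by
        rw [h4, ZMod.natCast_self, Nat.cast_zero]
      rw [← h5]
      push_cast
      rfl
    rw [add_assoc, h3]
  rw [e] at h
  exact Pool.Agent.Helper51.AJ.tch_mono h (sub_arc i (by omega) (by omega))
    (sub_arc i (le_refl 0) h1)

private lemma con_arc (hC : ∀ i, Con H (S i)) (hS : ∀ i, Tch H (S i) (S (i + 1))) {a b : ℕ}
    (h : a < b) : Con H (arc S i a b) := by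
  obtain ⟨n, rfl⟩ : ∃ n, b = a + 1 + n := ⟨b - a - 1, by omega⟩
  clear h
  induction n with
  | zero =>
    have e : arc S i a (a + 1 + 0) = S (i + (a : ℕ)) := by
      ext x
      constructor
      · rintro ⟨t, h1, h2, h3⟩
        have : t = a := by omega
        rw [this] at h3
        exact h3
      · intro hx
        exact ⟨a, le_refl a, by omega, hx⟩
    rw [e]
    exact hC _
  | succ n ih =>
    have e : arc S i a (a + 1 + (n + 1)) = arc S i a (a + 1 + n) ∪ S (i + ((a + 1 + n : ℕ) : ZMod m)) := by
      ext x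
      constructor
      · rintro ⟨t, h1, h2, h3⟩
        rcases Nat.lt_or_ge t (a + 1 + n) with h4 | h4
        · exact Or.inl ⟨t, h1, h4, h3⟩
        · have h5 : t = a + 1 + n := by omega
          rw [h5] at h3
          exact Or.inr h3
      · rintro (⟨t, h1, h2, h3⟩ | hx)
        · exact ⟨t, h1, by omega, h3⟩
        · exact ⟨a + 1 + n, by omega, by omega, hx⟩
    rw [e]
    refine Pool.Agent.Helper51.AJ.con_union ih (hC _) ?_
    have h := hS (i + ((a + n : ℕ) : ZMod m))
    have e' : i + ((a + n : ℕ) : ZMod m) + 1 = i + ((a + 1 + n : ℕ) : ZMod m) := by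
      have h4 : a + 1 + n = a + n + 1 := by omega
      rw [h4, Nat.cast_succ, add_assoc]
    rw [e'] at h
    exact Pool.Agent.Helper51.AJ.tch_mono h (sub_arc i (by omega) (by omega)) subset_rfl

private lemma dis_arc (hD : ∀ i j, i ≠ j → Disjoint (S i) (S j)) {a b c d : ℕ} (h1 : b ≤ c)
    (h2 : d ≤ m) : Disjoint (arc S i a b) (arc S i c d) := by
  rw [Set.disjoint_left]
  rintro x ⟨t, h3, h4, h5⟩ ⟨t', h6, h7, h8⟩
  refine Set.disjoint_left.1 (hD (i + t) (i + t') ?_) h5 h8
  intro h
  have h9 : (t : ZMod m) = (t' : ZMod m) := add_left_cancel h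
  rw [ZMod.natCast_eq_natCast_iff'] at h9
  rw [Nat.mod_eq_of_lt (by omega), Nat.mod_eq_of_lt (by omega)] at h9
  omega

private lemma dis_arc' {P : Set α} (hP : ∀ i, Disjoint P (S i)) (a b : ℕ) :
    Disjoint P (arc S i a b) := by
  rw [Set.disjoint_left]
  rintro x hx ⟨t, _, _, h⟩
  exact Set.disjoint_left.1 (hP _) hx h

private lemma tch_arc' {P : Set α} {a b t : ℕ} (h1 : a ≤ t) (h2 : t < b)
    (hP : Tch H P (S (i + t))) : Tch H P (arc S i a b) :=
  Pool.Agent.Helper51.AJ.tch_mono hP subset_rfl (sub_arc i h1 h2)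

end

/-- CRX -/
theorem hCRX (hMNR : StMNR) : StCRX := by
  intro α H m S P Q I J hm hC hD hS cP cQ dPQ dP dQ tI tJ hX
  have hsy := @Pool.Agent.Helper51.AJ.tch_symm α
  rcases hX with ⟨i, r, s, t, h0r, hrs, hst, htm, hiI, hrJ, hsI, htJ⟩ |
    ⟨x, y, z, hxy, hyz, hxz, hxI, hxJ, hyI, hyJ, hzI, hzJ⟩
  · -- the first form
    have c1 : Con H (arc S i 0 r) := con_arc i hC hS h0r
    have c2 : Con H (arc S i r s) := con_arc i hC hS hrs
    have c3 : Con H (arc S i s t) := con_arc i hC hS hst
    have c4 : Con H (arc S i t m) := con_arc i hC hS htm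
    have d12 : Disjoint (arc S i 0 r) (arc S i r s) := dis_arc i hD le_rfl (by omega)
    have d13 : Disjoint (arc S i 0 r) (arc S i s t) := dis_arc i hD (by omega) (by omega)
    have d14 : Disjoint (arc S i 0 r) (arc S i t m) := dis_arc i hD (by omega) (by omega)
    have d23 : Disjoint (arc S i r s) (arc S i s t) := dis_arc i hD le_rfl (by omega)
    have d24 : Disjoint (arc S i r s) (arc S i t m) := dis_arc i hD (by omega) (by omega)
    have d34 : Disjoint (arc S i s t) (arc S i t m) := dis_arc i hD le_rfl (by omega)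
    have t12 : Tch H (arc S i 0 r) (arc S i r s) := tch_arc i hS h0r hrs
    have t23 : Tch H (arc S i r s) (arc S i s t) := tch_arc i hS hrs hst
    have t34 : Tch H (arc S i s t) (arc S i t m) := tch_arc i hS hst htm
    have t41 : Tch H (arc S i t m) (arc S i 0 r) := tch_close i hS h0r htm
    have tP1 : Tch H P (arc S i 0 r) := by
      refine tch_arc' i (le_refl 0) h0r (tI _ ?_)
      have e : i + ((0 : ℕ) : ZMod m) = i := by rw [Nat.cast_zero, add_zero]
      rw [e]
      exact hiI
    have tP3 : Tch H P (arc S i s t) := tch_arc' i (le_refl s) hst (tI _ hsI)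
    have tQ2 : Tch H Q (arc S i r s) := tch_arc' i (le_refl r) hrs (tJ _ hrJ)
    have tQ4 : Tch H Q (arc S i t m) := tch_arc' i (le_refl t) htm (tJ _ htJ)
    constructor
    · intro tPQ hp
      exact three hMNR hp P (arc S i r s) (arc S i t m) Q (arc S i 0 r) (arc S i s t)
        cP c2 c4 cQ c1 c3 (dis_arc' i dP r s) (dis_arc' i dP t m) d24 (dis_arc' i dQ 0 r)
        (dis_arc' i dQ s t) d13 dPQ (dis_arc' i dP 0 r) (dis_arc' i dP s t)
        (dis_arc' i dQ r s).symm d12.symm d23 (dis_arc' i dQ t m).symm d14.symm d34.symm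
        tPQ tP1 tP3 (hsy tQ2) (hsy t12) t23 (hsy tQ4) t41 (hsy t34)
    · intro T cT dTP dTQ dT tT hp
      have tT1 : Tch H T (arc S i 0 r) := tch_arc' i (le_refl 0) h0r (tT _)
      have tT2 : Tch H T (arc S i r s) := tch_arc' i (le_refl r) hrs (tT _)
      have tT3 : Tch H T (arc S i s t) := tch_arc' i (le_refl s) hst (tT _)
      have tT4 : Tch H T (arc S i t m) := tch_arc' i (le_refl t) htm (tT _)
      have hm1 : ∀ {A B C : Set α}, Tch H A B → Tch H (A ∪ C) B := fun h =>
        Pool.Agent.Helper51.AJ.tch_mono h Set.subset_union_left subset_rfl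
      have hm2 : ∀ {A B C : Set α}, Tch H C B → Tch H (A ∪ C) B := fun h =>
        Pool.Agent.Helper51.AJ.tch_mono h Set.subset_union_right subset_rfl
      exact five hMNR hp (arc S i 0 r ∪ P) (arc S i s t) (arc S i r s ∪ Q) (arc S i t m) T
        (Pool.Agent.Helper51.AJ.con_union c1 cP (hsy tP1)) c3
        (Pool.Agent.Helper51.AJ.con_union c2 cQ (hsy tQ2)) c4 cT
        (Disjoint.union_left d13 (dis_arc' i dP s t))
        (Disjoint.union_left (Disjoint.union_right d12 (dis_arc' i dQ 0 r).symm)
          (Disjoint.union_right (dis_arc' i dP r s) dPQ))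
        (Disjoint.union_left d14 (dis_arc' i dP t m))
        (Disjoint.union_left (dis_arc' i dT 0 r).symm dTP.symm)
        (Disjoint.union_right d23.symm (dis_arc' i dQ s t).symm)
        d34 (dis_arc' i dT s t).symm
        (Disjoint.union_left d24 (dis_arc' i dQ t m))
        (Disjoint.union_left (dis_arc' i dT r s).symm dTQ.symm)
        (dis_arc' i dT t m).symm
        (hm2 tP3) (hm1 (hsy (hm1 (hsy t12)))) (hm1 (hsy t41)) (hm1 (hsy tT1))
        (hsy (hm1 t23)) t34 (hsy tT3) (hm2 tQ4) (hm1 (hsy tT2)) (hsy tT4)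
  · -- the second form
    have : NeZero m := ⟨by omega⟩
    have key : ∀ y z : ZMod m, x ≠ y → y ≠ z → x ≠ z → y ∈ I → y ∈ J → z ∈ I → z ∈ J →
        (y - x).val < (z - x).val →
        (Tch H P Q → ¬ Planar H) ∧
        (∀ T : Set α, Con H T → Disjoint T P → Disjoint T Q → (∀ i, Disjoint T (S i)) →
          (∀ i, Tch H T (S i)) → ¬ Planar H) := by
      intro y z hxy hyz hxz hyI hyJ hzI hzJ hlt
      obtain ⟨r, hr⟩ : ∃ r, r = (y - x).val := ⟨_, rfl⟩
      obtain ⟨s, hs⟩ : ∃ s, s = (z - x).val := ⟨_, rfl⟩
      rw [← hr, ← hs] at hlt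
      have hsm : s < m := by rw [hs]; exact ZMod.val_lt _
      have h0r : 0 < r := by
        rw [hr, Nat.pos_iff_ne_zero]
        intro h
        rw [ZMod.val_eq_zero, sub_eq_zero] at h
        exact hxy h.symm
      have ey : x + (r : ZMod m) = y := by
        rw [hr, ZMod.natCast_zmod_val]
        ring
      have ez : x + (s : ZMod m) = z := by
        rw [hs, ZMod.natCast_zmod_val]
        ring
      have ex : x + ((0 : ℕ) : ZMod m) = x := by rw [Nat.cast_zero, add_zero]
      have c1 : Con H (arc S x 0 r) := con_arc x hC hS h0r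
      have c2 : Con H (arc S x r s) := con_arc x hC hS hlt
      have c3 : Con H (arc S x s m) := con_arc x hC hS hsm
      have d12 : Disjoint (arc S x 0 r) (arc S x r s) := dis_arc x hD le_rfl (by omega)
      have d13 : Disjoint (arc S x 0 r) (arc S x s m) := dis_arc x hD (by omega) (by omega)
      have d23 : Disjoint (arc S x r s) (arc S x s m) := dis_arc x hD le_rfl (by omega)
      have t12 : Tch H (arc S x 0 r) (arc S x r s) := tch_arc x hS h0r hlt
      have t23 : Tch H (arc S x r s) (arc S x s m) := tch_arc x hS hlt hsm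
      have t31 : Tch H (arc S x s m) (arc S x 0 r) := tch_close x hS h0r hsm
      have tP1 : Tch H P (arc S x 0 r) := tch_arc' x (le_refl 0) h0r (tI _ (by rw [ex]; exact hxI))
      have tP2 : Tch H P (arc S x r s) := tch_arc' x (le_refl r) hlt (tI _ (by rw [ey]; exact hyI))
      have tP3 : Tch H P (arc S x s m) := tch_arc' x (le_refl s) hsm (tI _ (by rw [ez]; exact hzI))
      have tQ1 : Tch H Q (arc S x 0 r) := tch_arc' x (le_refl 0) h0r (tJ _ (by rw [ex]; exact hxJ))
      have tQ2 : Tch H Q (arc S x r s) := tch_arc' x (le_refl r) hlt (tJ _ (by rw [ey]; exact hyJ))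
      have tQ3 : Tch H Q (arc S x s m) := tch_arc' x (le_refl s) hsm (tJ _ (by rw [ez]; exact hzJ))
      constructor
      · intro tPQ hp
        exact five hMNR hp (arc S x 0 r) (arc S x r s) (arc S x s m) P Q c1 c2 c3 cP cQ d12 d13
          (dis_arc' x dP 0 r).symm (dis_arc' x dQ 0 r).symm d23 (dis_arc' x dP r s).symm
          (dis_arc' x dQ r s).symm (dis_arc' x dP s m).symm (dis_arc' x dQ s m).symm dPQ
          t12 (hsy t31) (hsy tP1) (hsy tQ1) t23 (hsy tP2) (hsy tQ2) (hsy tP3) (hsy tQ3) tPQ
      · intro T cT dTP dTQ dT tT hp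
        have tT1 : Tch H T (arc S x 0 r) := tch_arc' x (le_refl 0) h0r (tT _)
        have tT2 : Tch H T (arc S x r s) := tch_arc' x (le_refl r) hlt (tT _)
        have tT3 : Tch H T (arc S x s m) := tch_arc' x (le_refl s) hsm (tT _)
        exact three hMNR hp (arc S x 0 r) (arc S x r s) (arc S x s m) P Q T c1 c2 c3 cP cQ cT
          d12 d13 d23 dPQ dTP.symm dTQ.symm
          (dis_arc' x dP 0 r).symm (dis_arc' x dQ 0 r).symm (dis_arc' x dT 0 r).symm
          (dis_arc' x dP r s).symm (dis_arc' x dQ r s).symm (dis_arc' x dT r s).symm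
          (dis_arc' x dP s m).symm (dis_arc' x dQ s m).symm (dis_arc' x dT s m).symm
          (hsy tP1) (hsy tQ1) (hsy tT1) (hsy tP2) (hsy tQ2) (hsy tT2) (hsy tP3) (hsy tQ3) (hsy tT3)
    rcases lt_trichotomy (y - x).val (z - x).val with h | h | h
    · exact key y z hxy hyz hxz hyI hyJ hzI hzJ h
    · exact absurd (sub_left_injective (ZMod.val_injective m h)) hyz
    · exact key z y hxz hyz.symm hxy hzI hzJ hyI hyJ h

end Pool.Agent.Helper29.NK
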